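import Pool.Agent.U367.DR.Stm

/-!
# The cyclotomic character at Frobenius and inertia elements (package GLB of project DR)
-/

set_option autoImplicit false

namespace Pool.Agent.U780.DR

open NumberField IsDedekindDomain
open Pool.Agent.K4H40.ST

/-- Distinct `p`-power roots of unity are distinct modulo a prime not above `p`. -/
theorem root_eq {R : Type*} [CommRing R] [IsDomain R] (Q : Ideal R) [Q.IsPrime] (p : ℕ)
    (hp : (p : R) ∉ Q) (k : ℕ) (w w' : R) (h1 : w ^ p ^ k = 1) (h2 : w' ^ p ^ k = 1)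
    (hQ : w - w' ∈ Q) : w = w' := by
  by_contra hne
  have hpk : (p ^ k) ≠ 0 := by
    intro h0
    apply hp
    have : p = 0 := by
      by_contra hp0
      exact pow_ne_zero k hp0 h0
    rw [this, Nat.cast_zero]
    exact Q.zero_mem
  obtain ⟨m, hm⟩ : ∃ m, p ^ k = m + 1 := ⟨p ^ k - 1, by omega⟩
  set u : R := w * w' ^ m with hu
  have hu1 : u ^ (m + 1) = 1 := by
    rw [hu, mul_pow, ← hm, h1, one_mul, ← pow_mul, mul_comm, pow_mul, h2, one_pow]
  have hw' : w' * w' ^ m = 1 := by rw [← pow_succ', ← hm, h2]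
  have hune : u ≠ 1 := by
    intro h
    apply hne
    have : w * w' ^ m * w' = w' := by rw [← hu, h, one_mul]
    rw [mul_assoc, mul_comm (w' ^ m) w', hw', mul_one] at this
    exact this
  have huQ : u - 1 ∈ Q := by
    have : u - 1 = (w - w') * w' ^ m := by rw [sub_mul, hw']
    rw [this]
    exact Q.mul_mem_right _ hQ
  have hsum : ∑ i ∈ Finset.range (m + 1), u ^ i = 0 := by
    have h3 := geom_sum_mul u (m + 1)
    rw [hu1, sub_self] at h3
    rcases mul_eq_zero.1 h3 with h4 | h4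
    · exact h4
    · exact absurd (sub_eq_zero.1 h4) hune
  have hmk : Ideal.Quotient.mk Q u = 1 := by
    rw [← map_one (Ideal.Quotient.mk Q), Ideal.Quotient.eq]
    exact huQ
  have h5 := congrArg (Ideal.Quotient.mk Q) hsum
  rw [map_sum, map_zero] at h5
  simp only [map_pow, hmk, one_pow, Finset.sum_const, Finset.card_range, nsmul_eq_mul, mul_one] at h5
  rw [← hm, Nat.cast_pow] at h5
  have h6 : Ideal.Quotient.mk Q ((p : R) ^ k) = 0 := by
    rw [map_pow, map_natCast]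
    exact h5
  rw [Ideal.Quotient.eq_zero_iff_mem] at h6
  exact hp (Ideal.IsPrime.mem_of_pow_mem inferInstance k h6)

variable {F : Type} [Field F] [NumberField F]

theorem act_eq (p : ℕ) [Fact p.Prime] (v : HeightOneSpectrum (𝓞 F)) (hv : (p : 𝓞 F) ∉ v.asIdeal)
    (σ : Gal(AlgebraicClosure F/F)) (N : ℕ) (Q : Ideal (𝓞 (AlgebraicClosure F))) (hQ : Q.IsMaximal)
    (hQv : Q.comap (algebraMap (𝓞 F) (𝓞 (AlgebraicClosure F))) = v.asIdeal)
    (h : ∀ x : 𝓞 (AlgebraicClosure F), σ • x - x ^ N ∈ Q) (k : ℕ) (z : AlgebraicClosure F)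
    (hz : z ^ p ^ k = 1) : σ z = z ^ N := by
  have hp0 : p ^ k ≠ 0 := pow_ne_zero _ (Fact.out : p.Prime).ne_zero
  have hint : IsIntegral ℤ z := by
    refine IsIntegral.of_pow (Nat.pos_of_ne_zero hp0) ?_
    rw [hz]
    exact isIntegral_one
  set ζ : 𝓞 (AlgebraicClosure F) := ⟨z, hint⟩ with hζ
  have hζ1 : ζ ^ p ^ k = 1 := by
    apply RingOfIntegers.ext
    change algebraMap (𝓞 (AlgebraicClosure F)) (AlgebraicClosure F) (ζ ^ p ^ k) =
      algebraMap (𝓞 (AlgebraicClosure F)) (AlgebraicClosure F) 1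
    rw [map_pow, map_one]
    exact hz
  have hpQ : (p : 𝓞 (AlgebraicClosure F)) ∉ Q := by
    intro h0
    apply hv
    rw [← hQv, Ideal.mem_comap, map_natCast]
    exact h0
  have hprime : Q.IsPrime := hQ.isPrime
  have h1 : (σ • ζ) ^ p ^ k = 1 := by
    rw [← smul_pow', hζ1, smul_one]
  have h2 : (ζ ^ N) ^ p ^ k = 1 := by
    rw [← pow_mul, mul_comm, pow_mul, hζ1, one_pow]
  have h3 := root_eq Q p hpQ k _ _ h1 h2 (h ζ)
  have h4 := congrArg (algebraMap (𝓞 (AlgebraicClosure F)) (AlgebraicClosure F)) h3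
  rw [map_pow] at h4
  exact h4

theorem char_eq (p : ℕ) [Fact p.Prime] (σ : Gal(AlgebraicClosure F/F)) (N : ℕ)
    (h : ∀ (k : ℕ) (z : AlgebraicClosure F), z ^ p ^ k = 1 → σ z = z ^ N) :
    ((cyclotomicCharacter (AlgebraicClosure F) p
        (σ : AlgebraicClosure F ≃+* AlgebraicClosure F) : ℤ_[p]ˣ) : ℤ_[p]) = (N : ℤ_[p]) := by
  refine PadicInt.ext_of_toZModPow.mp fun n => ?_
  rw [map_natCast, cyclotomicCharacter.toZModPow]
  symm
  apply modularCyclotomicCharacter.unique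
  intro t ht
  have ht1 : (t : AlgebraicClosure F) ^ p ^ n = 1 := by
    have := (mem_rootsOfUnity _ _).1 ht
    rw [← Units.val_pow_eq_pow_val, this, Units.val_one]
  rw [ZMod.val_natCast]
  have h1 := h n t ht1
  have h2 : (t : AlgebraicClosure F) ^ N = (t : AlgebraicClosure F) ^ (N % p ^ n) := by
    conv_lhs => rw [← Nat.div_add_mod N (p ^ n), pow_add, pow_mul, ht1, one_pow, one_mul]
  rw [← h2, ← h1]
  rfl

/-- **Package GLB.** -/
theorem t_GLB : Pool.Agent.U367.DR.S_GLB := by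
  intro F _ _ p _ v hv σ
  refine ⟨?_, ?_⟩
  · rintro ⟨Q, hQ, hQv, h⟩
    apply Units.ext
    have := char_eq p σ 1 (act_eq p v hv σ 1 Q hQ hQv (fun x => by rw [pow_one]; exact h x))
    rw [this, Nat.cast_one, Units.val_one]
  · rintro ⟨Q, hQ, hQv, h⟩
    exact char_eq p σ _ (act_eq p v hv σ _ Q hQ hQv h)

end Pool.Agent.U780.DR
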