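import Pool.Agent.U367.DR.Def2
import Pool.Agent.U780.DR.GLB

/-!
# Continuity and purity of the character (package FINB of project DR)
-/

set_option autoImplicit false

namespace Pool.Agent.U780.DR

open NumberField IsDedekindDomain Polynomial
open Pool.Agent.K4H40.ST
open Pool.Agent.U367.DR

theorem continuous_toGL (p : ℕ) [Fact p.Prime] : Continuous (toGL p) := by
  refine Continuous.units_map _ ?_
  refine continuous_matrix fun i j => ?_
  change Continuous fun x : PadicAlgCl p => (Matrix.scalar (Fin 1) x) i j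
  have : i = j := Subsingleton.elim _ _
  subst this
  simp only [Matrix.scalar_apply, Matrix.diagonal_apply_eq]
  exact continuous_id

theorem root_toGL (p : ℕ) [Fact p.Prime] (a : (PadicAlgCl p)ˣ) (α : PadicAlgCl p)
    (h : ((toGL p a : GL (Fin 1) (PadicAlgCl p)) :
      Matrix (Fin 1) (Fin 1) (PadicAlgCl p)).charpoly.IsRoot α) : α = a := by
  have h1 : ((toGL p a : GL (Fin 1) (PadicAlgCl p)) :
      Matrix (Fin 1) (Fin 1) (PadicAlgCl p)).charpoly = X - C (a : PadicAlgCl p) := by
    rw [Matrix.charpoly, Matrix.det_fin_one, Matrix.charmatrix_apply_eq]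
    rfl
  rw [h1, root_X_sub_C] at h
  exact h.symm

/-- **Package FINB.** -/
theorem t_FINB : S_FINB := by
  intro hG F _ _ p _ ψ M hM hψ hpow
  have hcyc : Continuous (cyc F p) := cyclotomicCharacter.continuous p F (AlgebraicClosure F)
  refine ⟨?_, ?_⟩
  · have h1 : Continuous (fun σ => (ψ (cyc F p σ))⁻¹) := (hψ.comp hcyc).inv
    exact (continuous_toGL p).comp h1
  · intro v hv
    refine ⟨?_, ?_⟩
    · intro σ hσ
      have h : cyc F p σ = 1 := (hG F p v hv σ).1 hσ
      change toGL p ((ψ (cyc F p σ))⁻¹) = 1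
      rw [h, map_one, inv_one, map_one]
    · intro σ hσ α hα
      have h : ((cyc F p σ : ℤ_[p]ˣ) : ℤ_[p]) = (Ideal.absNorm v.asIdeal : ℤ_[p]) :=
        (hG F p v hv σ).2 hσ
      have h1 : rho F ψ σ⁻¹ = toGL p (ψ (cyc F p σ)) := by
        change toGL p ((ψ (cyc F p σ⁻¹))⁻¹) = _
        rw [map_inv (cyc F p) σ, map_inv ψ, inv_inv]
      rw [h1] at hα
      have h2 := root_toGL p _ α hα
      have h3 : α ^ (2 * M) = ((Ideal.absNorm v.asIdeal ^ M : ℕ) : PadicAlgCl p) := by
        rw [h2, hpow, h]
        push_cast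
        rfl
      refine ⟨?_, ?_⟩
      · refine IsIntegral.of_pow (n := 2 * M) (by omega) ?_
        rw [h3]
        exact isIntegral_natCast _
      · intro z hz
        have h4 : minpoly ℚ α ∣ X ^ (2 * M) - C ((Ideal.absNorm v.asIdeal ^ M : ℕ) : ℚ) := by
          refine minpoly.dvd ℚ α ?_
          rw [map_sub, map_pow, aeval_X, aeval_C, h3, map_natCast, sub_self]
        obtain ⟨r, hr⟩ := h4
        have h5 : z ^ (2 * M) = ((Ideal.absNorm v.asIdeal ^ M : ℕ) : ℂ) := by
          have h6 := congrArg (aeval z) hr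
          rw [map_mul, hz, zero_mul, map_sub, map_pow, aeval_X, aeval_C, map_natCast,
            sub_eq_zero] at h6
          exact h6
        have h7 := congrArg norm h5
        rw [norm_pow, Complex.norm_natCast] at h7
        have h8 : ((Ideal.absNorm v.asIdeal : ℝ) ^ (((1 : ℤ) : ℝ) / 2)) ^ (2 * M) =
            ((Ideal.absNorm v.asIdeal ^ M : ℕ) : ℝ) := by
          rw [← Real.rpow_natCast, ← Real.rpow_mul (Nat.cast_nonneg _)]
          have : ((1 : ℤ) : ℝ) / 2 * ((2 * M : ℕ) : ℝ) = (M : ℝ) := by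
            push_cast
            ring
          rw [this, Real.rpow_natCast, Nat.cast_pow]
        rw [← h8] at h7
        exact (pow_left_inj₀ (norm_nonneg _) (Real.rpow_nonneg (Nat.cast_nonneg _) _)
          (by omega)).1 h7

end Pool.Agent.U780.DR
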